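import Pool.Agent.N922.PQ.Stm2

/-! Project PV (helper922), part TOR: no points of odd order. -/

set_option autoImplicit false
set_option linter.all false

open Polynomial IsDedekindDomain WeierstrassCurve WeierstrassCurve.Affine NumberField
open Pool.Agent.TH115.GD
open scoped Classical

namespace Pool.Agent.N137.PV

open Pool.Agent.N874.PP (sW)
open Pool.Agent.N922.PQ

section val

variable {F : Type} [Field F] (v : Valuation F (WithZero (Multiplicative ℤ)))

theorem lt_one_le (hv : v 2 = WithZero.exp (-1 : ℤ)) {z : F} (hz : v z < 1) : v z ≤ v 2 := by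
  rw [hv]
  rcases eq_or_ne (v z) 0 with h | h
  · rw [h]; exact zero_le'
  · have h1 : v z = WithZero.exp (WithZero.log (v z)) := (WithZero.exp_log h).symm
    rw [h1] at hz ⊢
    have h2 : WithZero.exp (WithZero.log (v z)) < WithZero.exp (0 : ℤ) := by
      rwa [WithZero.exp_zero]
    rw [WithZero.exp_lt_exp] at h2
    rw [WithZero.exp_le_exp]
    omega

theorem two_lt (hv : v 2 = WithZero.exp (-1 : ℤ)) : v 2 < 1 := by
  rw [hv, ← WithZero.exp_zero, WithZero.exp_lt_exp]
  norm_num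

theorem two_ne (hv : v 2 = WithZero.exp (-1 : ℤ)) : (2 : F) ≠ 0 := by
  intro h
  rw [h, map_zero] at hv
  exact WithZero.exp_ne_zero hv.symm

theorem int_le (n : ℤ) : v (n : F) ≤ 1 := by
  have hnat : ∀ m : ℕ, v (m : F) ≤ 1 := by
    intro m
    induction m with
    | zero => simp
    | succ m ih =>
      rw [Nat.cast_succ]
      exact (v.map_add _ _).trans (max_le ih (by simp))
  rcases Int.eq_nat_or_neg n with ⟨m, rfl | rfl⟩
  · simpa using hnat m
  · simpa using hnat m

theorem add_le_one {a b : F} (ha : v a ≤ 1) (hb : v b ≤ 1) : v (a + b) ≤ 1 :=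
  (v.map_add _ _).trans (max_le ha hb)

theorem mul_le_one_v {a b : F} (ha : v a ≤ 1) (hb : v b ≤ 1) : v (a * b) ≤ 1 := by
  rw [map_mul]; exact mul_le_one' ha hb

theorem two_mul_lt (hv : v 2 = WithZero.exp (-1 : ℤ)) {a : F} (ha : v a ≤ 1) :
    v (2 * a) < 1 := by
  rw [map_mul]
  calc v 2 * v a ≤ v 2 * 1 := by gcongr
    _ = v 2 := mul_one _
    _ < 1 := two_lt v hv

/-- `x` is not `1` modulo `v` -/
theorem not_one (hv : v 2 = WithZero.exp (-1 : ℤ)) (k m : ℤ) (x y : F) (hx : v x ≤ 1)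
    (h : y ^ 2 = x ^ 3 + ((2 * k + 1 : ℤ) : F) * x + ((2 * k + 1 - 4 * m : ℤ) : F)) :
    ¬ v (x - 1) < 1 := by
  intro h1
  have h2 := two_ne v hv
  have hv2 : v 2 ≠ 0 := (v.ne_zero_iff).2 h2
  set s : F := (x - 1) / 2 with hs
  have hxs : x = 1 + 2 * s := by rw [hs]; field_simp; ring
  have hvs : v s ≤ 1 := by
    have h3 : v 2 * v s ≤ v 2 * 1 := by
      rw [← map_mul, mul_one]
      have : 2 * s = x - 1 := by rw [hxs]; ring
      rw [this]
      exact lt_one_le v hv h1
    exact le_of_mul_le_mul_left h3 (zero_lt_iff.2 hv2)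
  set q : F := (k : F) + s * ((k : F) + 2) + 3 * s ^ 2 + 2 * s ^ 3 - (m : F) with hq
  have hk := int_le v k
  have hm := int_le v m
  have h3' : v (3 : F) ≤ 1 := by simpa using int_le v 3
  have h2' : v (2 : F) ≤ 1 := by simpa using int_le v 2
  have hs2 : v (s ^ 2) ≤ 1 := by rw [map_pow]; exact pow_le_one' hvs 2
  have hs3 : v (s ^ 3) ≤ 1 := by rw [map_pow]; exact pow_le_one' hvs 3
  have hvq : v q ≤ 1 := by
    rw [hq, sub_eq_add_neg]
    refine add_le_one v (add_le_one v (add_le_one v (add_le_one v hk ?_) ?_) ?_) ?_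
    · exact mul_le_one_v v hvs (add_le_one v hk h2')
    · exact mul_le_one_v v h3' hs2
    · exact mul_le_one_v v h2' hs3
    · rwa [Valuation.map_neg]
  have hy : (y - 1) * (y + 1) = 2 * (1 + 2 * q) := by
    have : (y - 1) * (y + 1) = y ^ 2 - 1 := by ring
    rw [this, h, hxs, hq]
    push_cast
    ring
  have hprod : v (y - 1) * v (y + 1) = v 2 := by
    rw [← map_mul, hy, map_mul, v.map_one_add_of_lt (two_mul_lt v hv hvq), mul_one]
  have hor : v (y - 1) < 1 ∨ v (y + 1) < 1 := by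
    by_contra hc
    push Not at hc
    have : 1 ≤ v (y - 1) * v (y + 1) := one_le_mul hc.1 hc.2
    rw [hprod] at this
    exact absurd (two_lt v hv) (not_lt.2 this)
  have hboth : v (y - 1) ≤ v 2 ∧ v (y + 1) ≤ v 2 := by
    rcases hor with h4 | h4
    · have h5 := lt_one_le v hv h4
      refine ⟨h5, ?_⟩
      have : y + 1 = (y - 1) + 2 := by ring
      rw [this]
      exact (v.map_add _ _).trans (max_le h5 le_rfl)
    · have h5 := lt_one_le v hv h4
      refine ⟨?_, h5⟩
      have : y - 1 = (y + 1) + -2 := by ring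
      rw [this]
      exact (v.map_add _ _).trans (max_le h5 (by rw [Valuation.map_neg]))
  have h6 : v 2 ≤ v 2 * v 2 := by
    calc v 2 = v (y - 1) * v (y + 1) := hprod.symm
      _ ≤ v 2 * v 2 := mul_le_mul' hboth.1 hboth.2
  have h7 : v 2 * v 2 < v 2 * 1 :=
    mul_lt_mul_of_pos_left (two_lt v hv) (zero_lt_iff.2 hv2)
  rw [mul_one] at h7
  exact absurd h6 (not_le.2 h7)

theorem dup1 (hv : v 2 = WithZero.exp (-1 : ℤ)) (k m : ℤ) (x y D : F) (hx : v x ≤ 1)
    (h : y ^ 2 = x ^ 3 + ((2 * k + 1 : ℤ) : F) * x + ((2 * k + 1 - 4 * m : ℤ) : F))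
    (hD : D * (4 * y ^ 2) = (x ^ 2 - ((2 * k + 1 : ℤ) : F)) ^ 2 -
      8 * ((2 * k + 1 - 4 * m : ℤ) : F) * x) : 1 < v D := by
  have h1 := not_one v hv k m x y hx h
  have hA := int_le v (2 * k + 1)
  have hB := int_le v (2 * k + 1 - 4 * m)
  have hx1 : v (x - 1) = 1 := by
    refine le_antisymm ?_ (not_lt.1 h1)
    rw [sub_eq_add_neg]
    exact add_le_one v hx (by rw [Valuation.map_neg, map_one])
  have e1 : x ^ 2 - ((2 * k + 1 : ℤ) : F) = (x - 1) ^ 2 + 2 * (x - 1 - (k : F)) := by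
    push_cast; ring
  have e2 : v (x ^ 2 - ((2 * k + 1 : ℤ) : F)) = 1 := by
    rw [e1, Valuation.map_add_eq_of_lt_left]
    · rw [map_pow, hx1, one_pow]
    · rw [map_pow, hx1, one_pow]
      apply two_mul_lt v hv
      rw [sub_eq_add_neg]
      exact add_le_one v hx1.le (by rw [Valuation.map_neg]; exact int_le v k)
  have e3 : v (8 * ((2 * k + 1 - 4 * m : ℤ) : F) * x) < 1 := by
    have : (8 : F) * ((2 * k + 1 - 4 * m : ℤ) : F) * x =
        2 * (((4 : ℤ) : F) * ((2 * k + 1 - 4 * m : ℤ) : F) * x) := by push_cast; ring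
    rw [this]
    exact two_mul_lt v hv (mul_le_one_v v (mul_le_one_v v (int_le v 4) hB) hx)
  have e4 : v ((x ^ 2 - ((2 * k + 1 : ℤ) : F)) ^ 2 -
      8 * ((2 * k + 1 - 4 * m : ℤ) : F) * x) = 1 := by
    rw [sub_eq_add_neg, Valuation.map_add_eq_of_lt_left]
    · rw [map_pow, e2, one_pow]
    · rw [Valuation.map_neg, map_pow, e2, one_pow]
      exact e3
  have e5 : v (y ^ 2) ≤ 1 := by
    rw [h]
    refine add_le_one v (add_le_one v ?_ (mul_le_one_v v hA hx)) hB
    rw [map_pow]; exact pow_le_one' hx 3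
  have e6 : v (4 * y ^ 2) < 1 := by
    have : (4 : F) * y ^ 2 = 2 * (((2 : ℤ) : F) * y ^ 2) := by push_cast; ring
    rw [this]
    exact two_mul_lt v hv (mul_le_one_v v (int_le v 2) e5)
  by_contra hc
  push Not at hc
  have e7 : v D * v (4 * y ^ 2) = 1 := by rw [← map_mul, hD, e4]
  have e8 : v D * v (4 * y ^ 2) < 1 := by
    calc v D * v (4 * y ^ 2) ≤ 1 * v (4 * y ^ 2) := by gcongr
      _ = v (4 * y ^ 2) := one_mul _
      _ < 1 := e6
  rw [e7] at e8
  exact lt_irrefl _ e8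

theorem dup2 (hv : v 2 = WithZero.exp (-1 : ℤ)) (A B : ℤ) (x y D : F) (hx : 1 < v x)
    (h : y ^ 2 = x ^ 3 + (A : F) * x + (B : F))
    (hD : D * (4 * y ^ 2) = (x ^ 2 - (A : F)) ^ 2 - 8 * (B : F) * x) : v x < v D := by
  have hx0 : 0 < v x := lt_trans zero_lt_one hx
  have hA := int_le v A
  have hB := int_le v B
  have p2 : v x < v x ^ 2 := by
    rw [sq]; exact lt_mul_of_one_lt_left hx0 hx
  have p3 : v x < v x ^ 3 := by
    rw [pow_succ]
    exact lt_trans p2 (lt_mul_of_one_lt_right (lt_trans hx0 p2) hx)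
  have p4 : v x < v x ^ 4 := by
    rw [pow_succ]
    exact lt_trans p3 (lt_mul_of_one_lt_right (lt_trans hx0 p3) hx)
  have e1 : v (x ^ 2 - (A : F)) = v x ^ 2 := by
    rw [sub_eq_add_neg, Valuation.map_add_eq_of_lt_left, map_pow]
    rw [Valuation.map_neg, map_pow]
    exact lt_of_le_of_lt hA (lt_trans hx p2)
  have h8 : v (8 : F) ≤ 1 := by simpa using int_le v 8
  have e2 : v (8 * (B : F) * x) ≤ v x := by
    rw [map_mul]
    calc v (8 * (B : F)) * v x ≤ 1 * v x := by
          gcongr; exact mul_le_one_v v h8 hB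
      _ = v x := one_mul _
  have e3 : v ((x ^ 2 - (A : F)) ^ 2 - 8 * (B : F) * x) = v x ^ 4 := by
    rw [sub_eq_add_neg, Valuation.map_add_eq_of_lt_left]
    · rw [map_pow, e1, ← pow_mul]
    · rw [Valuation.map_neg, map_pow, e1, ← pow_mul]
      exact lt_of_le_of_lt e2 p4
  have e4 : v ((A : F) * x + (B : F)) ≤ v x := by
    refine (v.map_add _ _).trans (max_le ?_ (hB.trans hx.le))
    rw [map_mul]
    calc v (A : F) * v x ≤ 1 * v x := by gcongr
      _ = v x := one_mul _
  have e5 : v (y ^ 2) = v x ^ 3 := by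
    rw [h, add_assoc, Valuation.map_add_eq_of_lt_left, map_pow]
    rw [map_pow]
    exact lt_of_le_of_lt e4 p3
  by_contra hc
  push Not at hc
  have e6 : v D * (v 4 * v x ^ 3) = v x ^ 4 := by
    rw [← e3, ← hD, map_mul, map_mul, e5]
  have h4 : v (4 : F) < 1 := by
    have : (4 : F) = 2 * 2 := by norm_num
    rw [this]
    exact two_mul_lt v hv (two_lt v hv).le
  have e7 : v D * (v 4 * v x ^ 3) < v x ^ 4 := by
    calc v D * (v 4 * v x ^ 3) ≤ v x * (v 4 * v x ^ 3) := by gcongr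
      _ = v 4 * v x ^ 4 := by
          rw [pow_succ (v x) 3, ← mul_assoc, mul_comm (v x) (v 4), mul_assoc,
            mul_comm (v x) (v x ^ 3)]
      _ < 1 * v x ^ 4 := mul_lt_mul_of_pos_right h4 (pow_pos hx0 4)
      _ = v x ^ 4 := one_mul _
  rw [e6] at e7
  exact lt_irrefl _ e7

end val

section pts

variable {M : Type} [Field M] [CharZero M] (A B : M)

noncomputable def xv (f : M → WithZero (Multiplicative ℤ)) :
    Pt (sW A B) M → WithZero (Multiplicative ℤ)
  | .zero => 0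
  | .some x _ _ => f x

theorem coefs : ((sW A B).baseChange M).a₁ = 0 ∧ ((sW A B).baseChange M).a₂ = 0 ∧
    ((sW A B).baseChange M).a₃ = 0 ∧ ((sW A B).baseChange M).a₄ = A ∧
    ((sW A B).baseChange M).a₆ = B := by
  simp [sW, WeierstrassCurve.baseChange, WeierstrassCurve.map]

theorem eqn {x y : M} (h : ((sW A B).baseChange M).toAffine.Nonsingular x y) :
    y ^ 2 = x ^ 3 + A * x + B := by
  obtain ⟨h1, h2, h3, h4, h6⟩ := coefs A B
  have := (Affine.equation_iff _ _).1 h.1
  change y ^ 2 + ((sW A B).baseChange M).a₁ * x * y + ((sW A B).baseChange M).a₃ * y =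
    x ^ 3 + ((sW A B).baseChange M).a₂ * x ^ 2 + ((sW A B).baseChange M).a₄ * x +
      ((sW A B).baseChange M).a₆ at this
  rw [h1, h2, h3, h4, h6] at this
  linear_combination this

theorem negY_eq (x y : M) : ((sW A B).baseChange M).toAffine.negY x y = -y := by
  obtain ⟨h1, h2, h3, h4, h6⟩ := coefs A B
  show -y - ((sW A B).baseChange M).a₁ * x - ((sW A B).baseChange M).a₃ = -y
  rw [h1, h3]
  ring

/-- duplication -/
theorem dup (x y : M) (h : ((sW A B).baseChange M).toAffine.Nonsingular x y) (hy : y ≠ 0) :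
    ∃ (D z : M) (h' : ((sW A B).baseChange M).toAffine.Nonsingular D z),
      (Point.some x y h + Point.some x y h : Pt (sW A B) M) = Point.some D z h' ∧
      D * (4 * y ^ 2) = (x ^ 2 - A) ^ 2 - 8 * B * x := by
  obtain ⟨h1, h2, h3, h4, h6⟩ := coefs A B
  have hne : y ≠ ((sW A B).baseChange M).toAffine.negY x y := by
    rw [negY_eq]
    intro h5
    apply hy
    have : (2 : M) * y = 0 := by linear_combination h5
    rcases mul_eq_zero.1 this with h7 | h7
    · exact absurd h7 two_ne_zero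
    · exact h7
  refine ⟨_, _, _, Point.add_self_of_Y_ne hne, ?_⟩
  have he := eqn A B h
  have hs : ((sW A B).baseChange M).toAffine.slope x x y y = (3 * x ^ 2 + A) / (2 * y) := by
    rw [slope_of_Y_ne rfl hne, negY_eq]
    change (3 * x ^ 2 + 2 * ((sW A B).baseChange M).a₂ * x + ((sW A B).baseChange M).a₄ -
      ((sW A B).baseChange M).a₁ * y) / (y - -y) = _
    rw [h1, h2, h4]
    congr 1 <;> ring
  rw [hs]
  change (((3 * x ^ 2 + A) / (2 * y)) ^ 2 + ((sW A B).baseChange M).a₁ *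
    ((3 * x ^ 2 + A) / (2 * y)) - ((sW A B).baseChange M).a₂ - x - x) * (4 * y ^ 2) = _
  rw [h1, h2]
  have h22 : (2 : M) ≠ 0 := two_ne_zero
  have e : (((3 * x ^ 2 + A) / (2 * y)) ^ 2 + 0 * ((3 * x ^ 2 + A) / (2 * y)) - 0 - x - x) *
      (4 * y ^ 2) = (3 * x ^ 2 + A) ^ 2 - 8 * x * y ^ 2 := by
    field_simp
    ring
  rw [e, he]
  ring

end pts

theorem tor : S_TOR := by
  intro M R _ _ _ _ _ _ w hw A B hA hAB hfin hodd
  obtain ⟨k, hk⟩ := hA
  obtain ⟨m, hm⟩ := hAB
  have hB : B = 2 * k + 1 - 4 * m := by omega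
  subst hk
  subst hB
  set v := w.valuation M with hv
  by_contra hsub
  rw [not_subsingleton_iff_nontrivial] at hsub
  -- nonzero points are not of order two
  have htwo : ∀ P : Pt (sW ((2 * k + 1 : ℤ) : M) ((2 * k + 1 - 4 * m : ℤ) : M)) M, P ≠ 0 →
      P + P ≠ 0 := by
    intro P hP h
    have h1 : addOrderOf P ∣ 2 := by
      apply addOrderOf_dvd_of_nsmul_eq_zero
      rw [two_nsmul]; exact h
    have h2 : addOrderOf P ∣ Nat.card (Pt (sW ((2 * k + 1 : ℤ) : M)
      ((2 * k + 1 - 4 * m : ℤ) : M)) M) := addOrderOf_dvd_natCard P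
    have h3 : addOrderOf P = 1 := by
      rcases (Nat.dvd_prime Nat.prime_two).1 h1 with h4 | h4
      · exact h4
      · rw [h4] at h2
        exact absurd hodd (by rw [Nat.not_odd_iff_even]; exact (even_iff_two_dvd.2 h2))
    exact hP (AddMonoid.addOrderOf_eq_one_iff.1 h3)
  -- doubling increases the value
  have key : ∀ P : Pt (sW ((2 * k + 1 : ℤ) : M) ((2 * k + 1 - 4 * m : ℤ) : M)) M, P ≠ 0 →
      1 < xv _ _ v (P + P) ∧ xv _ _ v P < xv _ _ v (P + P) := by
    intro P hP
    match P, hP with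
    | .zero, hP => exact absurd rfl hP
    | .some x y h, hP =>
      have hy : y ≠ 0 := by
        rintro rfl
        apply htwo _ hP
        apply Point.add_self_of_Y_eq
        rw [negY_eq]
        ring
      obtain ⟨D, z, h', hadd, hD⟩ := dup _ _ x y h hy
      rw [hadd]
      have he := eqn _ _ h
      show 1 < v D ∧ v x < v D
      rcases le_or_gt (v x) 1 with hx | hx
      · have := dup1 v hw k m x y D hx he hD
        exact ⟨this, lt_of_le_of_lt hx this⟩
      · have := dup2 v hw _ _ x y D hx he hD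
        exact ⟨lt_trans hx this, this⟩
  obtain ⟨Q, hQ⟩ := exists_ne (0 : Pt (sW ((2 * k + 1 : ℤ) : M)
    ((2 * k + 1 - 4 * m : ℤ) : M)) M)
  obtain ⟨P, hP⟩ := Finite.exists_max (xv ((2 * k + 1 : ℤ) : M)
    ((2 * k + 1 - 4 * m : ℤ) : M) v)
  have hP0 : P ≠ 0 := by
    rintro rfl
    have h1 := (key Q hQ).1
    have h2 := hP (Q + Q)
    have h3 : xv ((2 * k + 1 : ℤ) : M) ((2 * k + 1 - 4 * m : ℤ) : M) v 0 = 0 := rfl
    rw [h3] at h2
    exact absurd (lt_of_lt_of_le h1 h2) (not_lt.2 zero_le_one)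
  exact absurd (key P hP0).2 (not_lt.2 (hP (P + P)))

end Pool.Agent.N137.PV
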